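import Pool.Agent.N232.K17.Loc
import Pool.Agent.N391.K17.N17
import Pool.Agent.R475.LP.Split

/-!
# Project K17 (helper875), part TAM (helper232): the product of the Tamagawa numbers over `K`

Some lemmas are adapted from `Pool/Agent/N106/QB/Tam.lean`.
-/

set_option autoImplicit false
set_option linter.unusedVariables false

open NumberField IsDedekindDomain WeierstrassCurve WithZero

namespace Pool.Agent.N232.K17

open scoped Classical

open Pool.Agent.N871.S17 (WN)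
open Pool.Agent.N875.K17 (Qd S_TAM)
open Pool.Agent.Y682.XF (base c Tam E0)
open Pool.Agent.H921R2.TatePole (below deg nm nm_eq)
open Pool.Agent.N49.QB (VV vv_int vv_le_one vv_one not_mem_of_not_dvd mem_of_dvd finr not_rat hensel
  vv_emb)
open Pool.Agent.N391.K17 (exists_int not_mem_sq vv_p res_int jac_one jac_ex)

theorem WN_one : WN 1 = W0 := by
  show (⟨1, -((15 * 1 + 1) / 4), 0, -(1 ^ 2), 0⟩ : WeierstrassCurve ℤ) = ⟨1, -4, 0, -1, 0⟩
  norm_num

section places

variable {K : Type} [Field K] [NumberField K] {m : ℤ} {r : K}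

theorem fin2 (h : Qd m K r) (hm : Squarefree m) (hm1 : m ≠ 1) : Module.finrank ℚ K = 2 :=
  finr (fun q => not_rat hm hm1 h.hr q) h.hK

theorem exists_above (p : Nat.Primes) : ∃ v : HeightOneSpectrum (𝓞 K), below v = p := by
  have hI : Ideal.span {(((p : ℕ) : 𝓞 K))} ≠ ⊤ := by
    intro h0
    have h1 : Ideal.absNorm (Ideal.span {(((p : ℕ) : 𝓞 K))}) = (p : ℕ) ^ Module.finrank ℚ K := by
      rw [Ideal.absNorm_span_natCast, RingOfIntegers.rank]
    rw [h0, Ideal.absNorm_top] at h1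
    have h2 : 0 < Module.finrank ℚ K := Module.finrank_pos
    have h3 := Nat.one_lt_pow h2.ne' p.2.one_lt
    omega
  obtain ⟨v, hv⟩ := Pool.Agent.R475.LP.exists_place p _ hI (Ideal.mem_span_singleton_self _)
  exact ⟨v, Pool.Agent.R475.LP.below_eq p v (hv (Ideal.mem_span_singleton_self _))⟩

theorem mem_below (v : HeightOneSpectrum (𝓞 K)) {p : Nat.Primes} (h : below v = p) :
    ((p : ℕ) : 𝓞 K) ∈ v.asIdeal := by
  rw [← h]
  exact (nm_eq v).2.2

/-- split primes -/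
theorem split_two (h : Qd m K r) (hm : Squarefree m) (hm1 : m ≠ 1) (p : Nat.Primes)
    (hp2 : (p : ℕ) ≠ 2) (hpd : ¬ ((p : ℕ) : ℤ) ∣ 2 * m) (c : ℤ) (hc : ((p : ℕ) : ℤ) ∣ c ^ 2 - m) :
    ∃ v w : HeightOneSpectrum (𝓞 K), v ≠ w ∧ ∀ u, below u = p ↔ u = v ∨ u = w := by
  have hf := fin2 h hm hm1
  obtain ⟨v, hv⟩ := exists_above (K := K) p
  have hvp := mem_below v hv
  have hsq := not_mem_sq h p.2 hpd v hvp
  -- the degree is one
  have hdeg : deg v = 1 := by
    rcases (Pool.Agent.R475.LP.deg_le hf v).1 with h1 | h1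
    · exact h1
    exfalso
    have h2 := (nm_eq v).1
    rw [h1, hv] at h2
    unfold nm at h2
    have hcard : Nat.card (𝓞 K ⧸ v.asIdeal) = (p : ℕ) ^ 2 := by
      rw [← h2]
      exact (Submodule.cardQuot_apply v.asIdeal).symm
    have hle : Nat.card (𝓞 K ⧸ v.asIdeal) ≤ Nat.card (Fin (p : ℕ)) := by
      apply Nat.card_le_card_of_surjective
        (fun i : Fin (p : ℕ) => Ideal.Quotient.mk v.asIdeal ((i : ℕ) : 𝓞 K))
      intro y
      obtain ⟨x, rfl⟩ := Ideal.Quotient.mk_surjective y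
      obtain ⟨k, hk⟩ := res_int h hm hm1 p.2 hp2 v hvp c hc x
      have hpos : (0 : ℤ) < ((p : ℕ) : ℤ) := by exact_mod_cast p.2.pos
      have h3 := Int.emod_nonneg k hpos.ne'
      have h4 := Int.emod_lt_of_pos k hpos
      refine ⟨⟨(k % ((p : ℕ) : ℤ)).toNat, by omega⟩, ?_⟩
      simp only
      rw [Ideal.Quotient.eq]
      have h5 : (((k % ((p : ℕ) : ℤ)).toNat : ℕ) : 𝓞 K) = ((k % ((p : ℕ) : ℤ) : ℤ) : 𝓞 K) := by
        have h6 : (((k % ((p : ℕ) : ℤ)).toNat : ℕ) : ℤ) = k % ((p : ℕ) : ℤ) := Int.toNat_of_nonneg h3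
        rw [← Int.cast_natCast, h6]
      rw [h5]
      have h7 : ((k % ((p : ℕ) : ℤ) : ℤ) : 𝓞 K) - x = -(x - (k : 𝓞 K)) +
          (((k % ((p : ℕ) : ℤ) - k : ℤ)) : 𝓞 K) := by
        push_cast
        ring
      rw [h7]
      refine add_mem (neg_mem hk) (mem_of_dvd v hvp _ ?_)
      exact Int.dvd_sub_self_of_emod_eq rfl
    rw [hcard, Nat.card_fin] at hle
    have := p.2.two_le
    nlinarith
  -- the second place
  have hdvd : v.asIdeal ∣ Ideal.span {(((p : ℕ) : 𝓞 K))} := by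
    rw [Ideal.dvd_iff_le, Ideal.span_singleton_le_iff_mem]
    exact hvp
  obtain ⟨J, hJ⟩ := hdvd
  have hJn : Ideal.absNorm J = (p : ℕ) := by
    have h5 := congrArg Ideal.absNorm hJ
    have h2 := (nm_eq v).1
    rw [hdeg, hv, pow_one] at h2
    unfold nm at h2
    rw [Pool.Agent.R475.LP.norm_p hf, map_mul, h2, pow_two] at h5
    exact (Nat.eq_of_mul_eq_mul_left p.2.pos h5).symm
  have hJt : J ≠ ⊤ := by
    intro h0
    rw [h0, Ideal.absNorm_top] at hJn
    exact p.2.one_lt.ne hJn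
  have hpJ : ((p : ℕ) : 𝓞 K) ∈ J := by
    have h1 : Ideal.span {(((p : ℕ) : 𝓞 K))} ≤ J := by
      rw [hJ]
      exact Ideal.mul_le_right
    exact h1 (Ideal.mem_span_singleton_self _)
  obtain ⟨w, hw⟩ := Pool.Agent.R475.LP.exists_place p J hJt hpJ
  have hwp : below w = p := Pool.Agent.R475.LP.below_eq p w (hw hpJ)
  have hne : v ≠ w := by
    rintro rfl
    apply hsq
    have h1 : v.asIdeal ∣ J := Ideal.dvd_iff_le.2 hw
    have h2 : v.asIdeal ^ 2 ∣ Ideal.span {(((p : ℕ) : 𝓞 K))} := by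
      rw [hJ, pow_two]
      exact mul_dvd_mul_left _ h1
    rwa [Ideal.dvd_iff_le, Ideal.span_singleton_le_iff_mem] at h2
  obtain ⟨-, -, -, hall⟩ := Pool.Agent.R475.LP.two_places hf v w hne (hv.trans hwp.symm)
  refine ⟨v, w, hne, fun u => ⟨fun hu => hall u (hu.trans hv.symm), ?_⟩⟩
  rintro (rfl | rfl)
  · exact hv
  · exact hwp

/-- inert primes -/
theorem inert_one (h : Qd m K r) (hm : Squarefree m) (hm1 : m ≠ 1) (p : Nat.Primes)
    (hc : ∀ c : ℤ, ¬ ((p : ℕ) : ℤ) ∣ c ^ 2 - m) :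
    ∃ v : HeightOneSpectrum (𝓞 K), ∀ u, below u = p ↔ u = v := by
  have hf := fin2 h hm hm1
  obtain ⟨v, hv⟩ := exists_above (K := K) p
  obtain ⟨δ, hδ, hδ2⟩ := exists_int h
  have hdeg : deg v ≠ 1 := by
    intro h1
    obtain ⟨c, hcv⟩ := Pool.Agent.R475.LP.deg_one_int v h1 δ
    apply hc c
    have h2 : (((c ^ 2 - m : ℤ)) : 𝓞 K) ∈ v.asIdeal := by
      have e : (((c ^ 2 - m : ℤ)) : 𝓞 K) = -((δ - (c : 𝓞 K)) * (δ + (c : 𝓞 K))) := by
        push_cast
        rw [← hδ2]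
        ring
      rw [e]
      exact neg_mem (Ideal.mul_mem_right _ _ hcv)
    have h3 := Pool.Agent.R475.LP.int_mem v _ h2
    rwa [hv] at h3
  refine ⟨v, fun u => ⟨fun hu => ?_, fun hu => hu ▸ hv⟩⟩
  by_contra hne
  exact hdeg (Pool.Agent.R475.LP.two_places hf v u (Ne.symm hne) (hv.trans hu.symm)).1

/-- ramified primes -/
theorem ram_one (h : Qd m K r) (hm : Squarefree m) (hm1 : m ≠ 1) (p : Nat.Primes)
    (hpm : ((p : ℕ) : ℤ) ∣ m) : ∃ v : HeightOneSpectrum (𝓞 K), (∀ u, below u = p ↔ u = v) ∧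
      VV v ((p : ℕ) : v.adicCompletion K) = exp (-2 : ℤ) ∧
      VV v (algebraMap K (v.adicCompletion K) r) = exp (-1 : ℤ) := by
  have hf := fin2 h hm hm1
  obtain ⟨v, hv⟩ := exists_above (K := K) p
  have hvp := mem_below v hv
  obtain ⟨δ, hδ, hδ2⟩ := exists_int h
  obtain ⟨m', hm'⟩ := hpm
  have hpm' : ¬ ((p : ℕ) : ℤ) ∣ m' := by
    rintro ⟨t, rfl⟩
    have h1 := hm ((p : ℕ) : ℤ) ⟨t, by rw [hm']; ring⟩
    exact (Nat.prime_iff_prime_int.1 p.2).not_isUnit h1
  have hδv : δ ∈ v.asIdeal := by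
    have h1 : δ ^ 2 ∈ v.asIdeal := by
      rw [hδ2]
      exact mem_of_dvd v hvp m ⟨m', hm'⟩
    exact v.isPrime.mem_of_pow_mem 2 h1
  have hm'v : (m' : 𝓞 K) ∉ v.asIdeal := not_mem_of_not_dvd p.2 v hvp m' hpm'
  have e1 : ((p : ℕ) : 𝓞 K) * (m' : 𝓞 K) = δ ^ 2 := by
    rw [hδ2, hm']
    push_cast
    rfl
  -- valuations
  have i1 : v.intValuation (m' : 𝓞 K) = 1 := HeightOneSpectrum.intValuation_eq_one_iff.2 hm'v
  have i2 : v.intValuation ((p : ℕ) : 𝓞 K) = v.intValuation δ ^ 2 := by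
    rw [← map_pow, ← e1, map_mul, i1, mul_one]
  have i3 : v.intValuation δ ≤ exp (-(1 : ℕ) : ℤ) := by
    rw [HeightOneSpectrum.intValuation_le_pow_iff_mem, pow_one]
    exact hδv
  have i4 : v.intValuation ((p : ℕ) : 𝓞 K) ≤ exp (-(2 : ℕ) : ℤ) := by
    rw [i2]
    calc v.intValuation δ ^ 2 ≤ (exp (-(1 : ℕ) : ℤ)) ^ 2 := pow_le_pow_left₀ zero_le i3 2
      _ = exp (-(2 : ℕ) : ℤ) := by rw [← exp_nsmul]; rfl
  have hp2 : ((p : ℕ) : 𝓞 K) ∈ v.asIdeal ^ 2 := by
    rw [← HeightOneSpectrum.intValuation_le_pow_iff_mem]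
    exact i4
  -- the ideal
  have hdvd : v.asIdeal ^ 2 ∣ Ideal.span {(((p : ℕ) : 𝓞 K))} := by
    rw [Ideal.dvd_iff_le, Ideal.span_singleton_le_iff_mem]
    exact hp2
  obtain ⟨J, hJ⟩ := hdvd
  have hn := congrArg Ideal.absNorm hJ
  obtain ⟨g1, g2, g3⟩ := nm_eq v
  rw [hv] at g1
  unfold nm at g1
  rw [Pool.Agent.R475.LP.norm_p hf, map_mul, map_pow, g1] at hn
  have hJ0 : Ideal.absNorm J ≠ 0 := by
    intro h0
    rw [h0, mul_zero] at hn
    exact pow_ne_zero 2 p.2.ne_zero hn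
  have hJ1 : Ideal.absNorm J = 1 := by
    by_contra hcon
    have h2 : 2 ≤ Ideal.absNorm J := by omega
    have h3 : (p : ℕ) ^ 2 ≤ ((p : ℕ) ^ deg v) ^ 2 :=
      Nat.pow_le_pow_left (Nat.le_self_pow g2.ne' _) 2
    have h4 : 0 < (p : ℕ) ^ 2 := pow_pos p.2.pos 2
    nlinarith
  have hJt : J = ⊤ := Ideal.absNorm_eq_one_iff.1 hJ1
  rw [hJt, Ideal.mul_top] at hJ
  have i5 : ¬ v.intValuation ((p : ℕ) : 𝓞 K) ≤ exp (-(3 : ℕ) : ℤ) := by
    rw [HeightOneSpectrum.intValuation_le_pow_iff_mem]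
    intro h3
    have h4 : v.asIdeal ^ 3 ∣ v.asIdeal ^ 2 := by
      rw [← hJ, Ideal.dvd_iff_le, Ideal.span_singleton_le_iff_mem]
      exact h3
    have h5 := (pow_dvd_pow_iff v.ne_bot (by
      intro h6
      exact v.isPrime.ne_top (Ideal.isUnit_iff.1 h6))).1 h4
    omega
  have i6 : v.intValuation ((p : ℕ) : 𝓞 K) = exp (-2 : ℤ) := by
    have h0 : v.intValuation ((p : ℕ) : 𝓞 K) ≠ 0 := by
      intro h0
      apply i5
      rw [h0]
      exact zero_le
    generalize v.intValuation ((p : ℕ) : 𝓞 K) = x at h0 i4 i5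
    rw [← exp_log h0] at i4 i5 ⊢
    rw [exp_le_exp] at i4 i5
    congr 1
    push_cast at i4 i5
    omega
  have i7 : v.intValuation δ = exp (-1 : ℤ) := by
    have h0 : v.intValuation δ ≠ 0 := by
      intro h0
      rw [i6, h0] at i2
      exact exp_ne_zero i2
    rw [i6] at i2
    generalize v.intValuation δ = x at h0 i2
    rw [← exp_log h0, ← exp_nsmul] at i2
    rw [← exp_log h0]
    have := exp_injective i2
    congr 1
    simp at this
    omega
  refine ⟨v, fun u => ⟨fun hu => ?_, fun hu => hu ▸ hv⟩, ?_, ?_⟩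
  · have h1 := mem_below u hu
    have h2 : v.asIdeal ^ 2 ≤ u.asIdeal := by
      rw [← hJ, Ideal.span_singleton_le_iff_mem]
      exact h1
    have h3 : v.asIdeal ≤ u.asIdeal := u.isPrime.le_of_pow_le h2
    have h4 : v.asIdeal = u.asIdeal :=
      (v.isPrime.isMaximal v.ne_bot).eq_of_le u.isPrime.ne_top h3
    exact (HeightOneSpectrum.ext h4).symm
  · have h1 := vv_int v ((p : ℕ) : ℤ)
    rw [Int.cast_natCast, Int.cast_natCast] at h1
    have e : algebraMap (𝓞 K) K ((p : ℕ) : 𝓞 K) = ((p : ℕ) : K) := map_natCast _ _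
    rw [h1, ← e, HeightOneSpectrum.valuation_of_algebraMap, i6]
  · have h1 : VV v (algebraMap K (v.adicCompletion K) r) = v.valuation K r :=
      HeightOneSpectrum.valuedAdicCompletion_eq_valuation' v _
    rw [h1, ← hδ, HeightOneSpectrum.valuation_of_algebraMap, i7]

end places

/-! ### The Tamagawa numbers -/

section tam

variable {K : Type} [Field K] [NumberField K] {m : ℤ} {r : K}

theorem p17 : Nat.Prime 17 := by norm_num

theorem vv_two (v : HeightOneSpectrum (𝓞 K)) (hv : ((17 : ℕ) : 𝓞 K) ∈ v.asIdeal) :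
    VV v (2 : v.adicCompletion K) = 1 := by
  have := vv_one p17 v hv 2 (by norm_num)
  exact_mod_cast this

theorem c_good (v : HeightOneSpectrum (𝓞 K)) (hv : (below v : ℕ) ≠ 17) : c (WN 1) v = 1 := by
  have hvp := (nm_eq v).2.2
  have hp := (below v).2
  have h17 : ¬ ((below v : ℕ) : ℤ) ∣ 17 := by
    intro h1
    have h2 : (below v : ℕ) ∣ 17 := by exact_mod_cast h1
    exact hv ((Nat.prime_dvd_prime_iff_eq hp p17).1 h2)
  have e : VV v (17 : v.adicCompletion K) = 1 := by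
    have := vv_one hp v hvp 17 h17
    exact_mod_cast this
  rw [WN_one]
  show (E0 W0 (v.adicCompletion K) Valued.v).index = 1
  rw [l_good (VV v) (vv_le_one v) e]
  exact AddSubgroup.index_top

theorem c_two (h : Qd m K r) (h17 : ¬ (17 : ℤ) ∣ m) (v : HeightOneSpectrum (𝓞 K))
    (hv : (below v : ℕ) = 17) : c (WN 1) v = 2 := by
  have hvp := (nm_eq v).2.2
  rw [hv] at hvp
  have h34 : ¬ ((17 : ℕ) : ℤ) ∣ 2 * m := by
    intro h1
    rcases (Nat.prime_iff_prime_int.1 p17).dvd_or_dvd h1 with h2 | h2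
    · norm_num at h2
    · exact h17 (by exact_mod_cast h2)
  have e : VV v (17 : v.adicCompletion K) = exp (-1 : ℤ) := by
    have := vv_p h p17 h34 v hvp
    exact_mod_cast this
  rw [WN_one]
  show (E0 W0 (v.adicCompletion K) Valued.v).index = 2
  exact l_two (VV v) (vv_le_one v) (vv_two v hvp) e

/-- **K17-TAM** -/
theorem t_TAM : S_TAM := by
  intro m hm hm1 K _ _ r hq
  have hfin : {v : HeightOneSpectrum (𝓞 K) | c (WN 1) v ≠ 1}.Finite := by
    have h1 : Ideal.span {(((17 : ℕ)) : 𝓞 K)} ≠ 0 := by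
      rw [Ne, Ideal.zero_eq_bot, Ideal.span_singleton_eq_bot]
      exact_mod_cast (by norm_num : (17 : ℕ) ≠ 0)
    refine (Ideal.finite_factors h1).subset fun v hv => ?_
    rw [Set.mem_ofPred_eq] at hv ⊢
    rw [Ideal.dvd_span_singleton]
    have h2 : (below v : ℕ) = 17 := by
      by_contra hcon
      exact hv (c_good v hcon)
    have h3 := (nm_eq v).2.2
    rwa [h2] at h3
  refine ⟨hfin, ?_⟩
  unfold Tam
  have hb : ∀ {v : HeightOneSpectrum (𝓞 K)}, below v = ⟨17, p17⟩ ↔ (below v : ℕ) = 17 :=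
    fun {v} => ⟨fun h => congrArg Subtype.val h, fun h => Subtype.ext h⟩
  by_cases h17 : (17 : ℤ) ∣ m
  · obtain ⟨v, hall, e17, er⟩ := ram_one hq hm hm1 ⟨17, p17⟩ (by exact_mod_cast h17)
    have hvb := hb.1 ((hall v).2 rfl)
    have hvp := (nm_eq v).2.2
    rw [hvb] at hvp
    have hj : jacobiSym m 17 ≠ -1 := by
      rw [← jacobiSym.legendreSym.to_jacobiSym 17 m, (legendreSym.eq_zero_iff 17 m).2]
      · norm_num
      · rw [ZMod.intCast_zmod_eq_zero_iff_dvd]
        exact_mod_cast h17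
    rw [if_neg hj, finprod_eq_single _ v]
    · rw [WN_one]
      show (E0 W0 (v.adicCompletion K) Valued.v).index = 4
      refine l_four (VV v) (vv_le_one v) (vv_two v hvp) ?_ er ?_
      · exact_mod_cast e17
      · intro z hz
        exact hensel p17 (by norm_num) v hvp z hz
    · intro u hu
      apply c_good
      intro h1
      exact hu ((hall u).1 (hb.2 h1))
  · by_cases hj : jacobiSym m 17 = -1
    · have hns : ∀ k : ℤ, ¬ (((17 : ℕ)) : ℤ) ∣ k ^ 2 - m := by
        intro k hk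
        have := jac_one h17 ⟨k, by exact_mod_cast hk⟩
        rw [hj] at this
        norm_num at this
      obtain ⟨v, hall⟩ := inert_one hq hm hm1 ⟨17, p17⟩ hns
      rw [if_pos hj, finprod_eq_single _ v]
      · exact c_two hq h17 v (hb.1 ((hall v).2 rfl))
      · intro u hu
        apply c_good
        intro h1
        exact hu ((hall u).1 (hb.2 h1))
    · have hj1 : jacobiSym m 17 = 1 := by
        rw [← jacobiSym.legendreSym.to_jacobiSym 17 m] at hj ⊢
        refine (legendreSym.eq_one_or_neg_one 17 ?_).resolve_right hj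
        rw [Ne, ZMod.intCast_zmod_eq_zero_iff_dvd]
        exact_mod_cast h17
      obtain ⟨k, hk⟩ := jac_ex hj1
      have h34 : ¬ (((17 : ℕ)) : ℤ) ∣ 2 * m := by
        intro h1
        rcases (Nat.prime_iff_prime_int.1 p17).dvd_or_dvd h1 with h2 | h2
        · norm_num at h2
        · exact h17 (by exact_mod_cast h2)
      obtain ⟨v, w, hne, hall⟩ := split_two hq hm hm1 ⟨17, p17⟩ (by norm_num) h34 k
        (by exact_mod_cast hk)
      have hsub : Function.mulSupport (fun v : HeightOneSpectrum (𝓞 K) => c (WN 1) v) ⊆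
          (({v, w} : Finset (HeightOneSpectrum (𝓞 K))) : Set _) := by
        intro u hu
        rw [Finset.mem_coe, Finset.mem_insert, Finset.mem_singleton, ← hall, hb]
        by_contra hcon
        exact hu (c_good u hcon)
      rw [if_neg hj, finprod_eq_prod_of_mulSupport_subset _ hsub, Finset.prod_pair hne,
        c_two hq h17 v (hb.1 ((hall v).2 (Or.inl rfl))),
        c_two hq h17 w (hb.1 ((hall w).2 (Or.inr rfl)))]
      norm_num

end tam

end Pool.Agent.N232.K17
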