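import Pool.Agent.Y641.XF.Tam

/-!
# Project K17 (helper875), part TAM: the local computation (helper232)

The group of the points with nonsingular reduction of `y² + x y = x³ - 4 x² - x` over discretely valued
fields. The first lemmas are adapted from `Pool/Agent/N106/QB/TL.lean`.
-/

set_option autoImplicit false
set_option linter.unusedSectionVars false
set_option linter.unusedVariables false

namespace Pool.Agent.N232.K17

open scoped Classical
open WeierstrassCurve WithZero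
open Pool.Agent.Y809.BSD14 (nadd nsub nmul npow nneg ladd lsub lneg lmul lmul' norm_eq_of_lt nnat Sg)
open Pool.Agent.Y641.XF (Ns HH mem_HH Dsc nf nf_ultra nf_le_one nf_lt_one nf_eq_one nf_half nf_dsc
  nf_eq E0_eq)
open Pool.Agent.Y682.XF (base E0)

section alg

variable {K : Type} [Field K] {W : WeierstrassCurve.Affine K} {a b c : K}

/-- with `X = 4 x`, `Y = 4 (2 y + x)` the equation is `Y² = (X - a) (X - b) (X - c)` -/
structure IsN (W : WeierstrassCurve.Affine K) (a b c : K) : Prop where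
  a1 : W.a₁ = 1
  a2 : 4 * W.a₂ = -(a + b + c) - 1
  a3 : W.a₃ = 0
  a4 : 16 * W.a₄ = a * b + a * c + b * c
  a6 : 64 * W.a₆ = -(a * b * c)

theorem IsN.rot (h : IsN W a b c) : IsN W b c a :=
  ⟨h.a1, by rw [h.a2]; ring, h.a3, by rw [h.a4]; ring, by rw [h.a6]; ring⟩

theorem IsN.eqn (h : IsN W a b c) {x y : K} (hE : W.Equation x y) :
    (4 * (2 * y + x)) ^ 2 = (4 * x - a) * (4 * x - b) * (4 * x - c) := by
  rw [Affine.equation_iff, h.a1, h.a3] at hE
  linear_combination 64 * hE + 16 * x ^ 2 * h.a2 + 4 * x * h.a4 + h.a6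

theorem IsN.der (h : IsN W a b c) (x y : K) :
    (4 * x - a) * (4 * x - b) + (4 * x - a) * (4 * x - c) + (4 * x - b) * (4 * x - c) =
      -8 * (2 * (W.a₁ * y - (3 * x ^ 2 + 2 * W.a₂ * x + W.a₄)) - (2 * y + W.a₁ * x + W.a₃)) := by
  rw [h.a1, h.a3]
  linear_combination (-8 * x) * h.a2 - h.a4

theorem IsN.nonsing (h : IsN W a b c) (h2 : (2 : K) ≠ 0) (hab : a - b ≠ 0) (hac : a - c ≠ 0) :
    W.Nonsingular (a / 4) (-a / 8) := by
  have h4 : (4 : K) ≠ 0 := by
    have : (4 : K) = 2 ^ 2 := by norm_num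
    rw [this]
    exact pow_ne_zero _ h2
  have h8 : (8 : K) ≠ 0 := by
    have : (8 : K) = 2 ^ 3 := by norm_num
    rw [this]
    exact pow_ne_zero _ h2
  have h64 : (64 : K) ≠ 0 := by
    have : (64 : K) = 2 ^ 6 := by norm_num
    rw [this]
    exact pow_ne_zero _ h2
  have e4 : 4 * (a / 4) = a := by field_simp
  have e8 : 8 * (-a / 8) = -a := by field_simp
  set x := a / 4 with hx
  set y := -a / 8 with hy
  rw [Affine.nonsingular_iff, Affine.equation_iff]
  have e2 : 2 * y + x = 0 := by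
    have : (4 : K) * (2 * y + x) = 0 := by linear_combination e8 + e4
    exact (mul_eq_zero.1 this).resolve_left h4
  constructor
  · rw [h.a1, h.a3]
    apply mul_left_cancel₀ h64
    have e3 : 4 * x - a = 0 := by rw [e4, sub_self]
    linear_combination (16 * (2 * y + x)) * e2 - 16 * x ^ 2 * h.a2 - 4 * x * h.a4 - h.a6 -
      (4 * x - b) * (4 * x - c) * e3
  · left
    intro h0
    have hd := h.der x y
    rw [sub_eq_zero.2 h0, h.a1, h.a3] at hd
    have e3 : 2 * y + 1 * x + 0 = 0 := by linear_combination e2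
    rw [e3, e4, sub_self, mul_zero, sub_self, mul_zero, zero_mul, zero_mul, zero_add, zero_add] at hd
    exact mul_ne_zero hab hac hd

theorem IsN.addT (h : IsN W a b c) (h2 : (2 : K) ≠ 0) {x y : K} (hP : W.Nonsingular x y)
    (hT : W.Nonsingular (a / 4) (-a / 8)) (hx : 4 * x - a ≠ 0) :
    ∃ X Y H, (Affine.Point.some x y hP + Affine.Point.some (a / 4) (-a / 8) hT : W.Point) =
      Affine.Point.some X Y H ∧ 4 * X - a = (a - b) * (a - c) / (4 * x - a) := by
  have h4 : (4 : K) ≠ 0 := by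
    have : (4 : K) = 2 ^ 2 := by norm_num
    rw [this]
    exact pow_ne_zero _ h2
  have h8 : (8 : K) ≠ 0 := by
    have : (8 : K) = 2 ^ 3 := by norm_num
    rw [this]
    exact pow_ne_zero _ h2
  have hne : x ≠ a / 4 := by
    rintro rfl
    apply hx
    field_simp
    ring
  have hne' : x - a / 4 ≠ 0 := sub_ne_zero.2 hne
  rw [Affine.Point.add_of_X_ne hne]
  refine ⟨_, _, _, rfl, ?_⟩
  rw [Affine.addX, h.a1]
  set l := W.slope x (a / 4) y (-a / 8) with hl
  have hl2 : 2 * l + 1 = 4 * (2 * y + x) / (4 * x - a) := by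
    have hlt : l * (x - a / 4) = y - -a / 8 := by
      rw [hl, Affine.slope_of_X_ne hne, div_mul_cancel₀ _ hne']
    have e4 : 4 * (a / 4) = a := by field_simp
    have e8 : 8 * (-a / 8) = -a := by field_simp
    rw [eq_div_iff hx]
    linear_combination 8 * hlt + (2 * l) * e4 - e8
  have e1 : 4 * (l ^ 2 + 1 * l - W.a₂ - x - a / 4) - a =
      (2 * l + 1) ^ 2 + (a + b + c) - 4 * x - 2 * a := by
    have e4 : 4 * (a / 4) = a := by field_simp
    linear_combination (-1) * h.a2 - e4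
  rw [e1, hl2, div_pow, h.eqn hP.1]
  field_simp
  ring

theorem IsN.dbl (h : IsN W a b c) (h2 : (2 : K) ≠ 0) (hT : W.Nonsingular (a / 4) (-a / 8)) :
    (Affine.Point.some (a / 4) (-a / 8) hT + Affine.Point.some (a / 4) (-a / 8) hT : W.Point) = 0 := by
  have h8 : (8 : K) ≠ 0 := by
    have : (8 : K) = 2 ^ 3 := by norm_num
    rw [this]
    exact pow_ne_zero _ h2
  have h4 : (4 : K) ≠ 0 := by
    have : (4 : K) = 2 ^ 2 := by norm_num
    rw [this]
    exact pow_ne_zero _ h2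
  refine Affine.Point.add_of_Y_eq rfl ?_
  rw [Affine.negY, h.a1, h.a3]
  field_simp
  norm_num

/-- a point with `X = a` is the point of order two -/
theorem IsN.eq_T (h : IsN W a b c) (h2 : (2 : K) ≠ 0) {x y : K} (hP : W.Nonsingular x y)
    (hT : W.Nonsingular (a / 4) (-a / 8)) (hx : 4 * x - a = 0) :
    (Affine.Point.some x y hP : W.Point) = Affine.Point.some (a / 4) (-a / 8) hT := by
  have h8 : (8 : K) ≠ 0 := by
    have : (8 : K) = 2 ^ 3 := by norm_num
    rw [this]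
    exact pow_ne_zero _ h2
  have h4 : (4 : K) ≠ 0 := by
    have : (4 : K) = 2 ^ 2 := by norm_num
    rw [this]
    exact pow_ne_zero _ h2
  have e1 := h.eqn hP.1
  rw [hx, zero_mul, zero_mul] at e1
  have e2 : 4 * (2 * y + x) = 0 := by
    exact pow_eq_zero_iff two_ne_zero |>.1 e1
  have ex : x = a / 4 := by
    rw [eq_div_iff h4]
    linear_combination hx
  have ey : y = -a / 8 := by
    rw [eq_div_iff h8]
    linear_combination e2 - hx
  subst ex
  subst ey
  rfl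

/-- the sum of two points: with `u = 4 x - a`, `Y = 4 (2 y + x)` -/
theorem IsN.addP (h : IsN W a b c) {x1 y1 x2 y2 : K} (h1 : W.Nonsingular x1 y1)
    (h2 : W.Nonsingular x2 y2) (hne : x1 ≠ x2) :
    ∃ X Y H, (Affine.Point.some x1 y1 h1 + Affine.Point.some x2 y2 h2 : W.Point) =
      Affine.Point.some X Y H ∧
      (4 * X - a) * ((4 * x1 - a) * (4 * x2 - a)) * (x1 - x2) ^ 2 * 16 =
        (4 * (2 * y1 + x1) * (4 * x2 - a) - 4 * (2 * y2 + x2) * (4 * x1 - a)) ^ 2 := by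
  have hne' : x1 - x2 ≠ 0 := sub_ne_zero.2 hne
  rw [Affine.Point.add_of_X_ne hne]
  refine ⟨_, _, _, rfl, ?_⟩
  rw [Affine.addX, h.a1]
  set l := W.slope x1 x2 y1 y2 with hl
  have hlt : l * (x1 - x2) = y1 - y2 := by
    rw [hl, Affine.slope_of_X_ne hne, div_mul_cancel₀ _ hne']
  have e1 := h.eqn h1.1
  have e2 := h.eqn h2.1
  have e3 : (4 * (l ^ 2 + 1 * l - W.a₂ - x1 - x2) - a) * (x1 - x2) ^ 2 =
      (2 * (y1 - y2) + (x1 - x2)) ^ 2 + (b + c - 4 * x1 - 4 * x2) * (x1 - x2) ^ 2 := by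
    linear_combination (4 * l * (x1 - x2) + 4 * (y1 - y2) + 4 * (x1 - x2)) * hlt -
      (x1 - x2) ^ 2 * h.a2
  linear_combination 16 * ((4 * x1 - a) * (4 * x2 - a)) * e3 +
    4 * ((4 * x2 - a) * (x1 - x2)) * e1 - 4 * ((4 * x1 - a) * (x1 - x2)) * e2

/-- the opposite point -/
theorem IsN.neg (h : IsN W a b c) {x y : K} (hP : W.Nonsingular x y) :
    ∃ H, (-Affine.Point.some x y hP : W.Point) = Affine.Point.some x (-y - x) H := by
  have e : W.negY x y = -y - x := by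
    rw [Affine.negY, h.a1, h.a3]
    ring
  refine ⟨e ▸ (Affine.nonsingular_neg x y).2 hP, ?_⟩
  rw [Affine.Point.neg_some]
  congr 1

end alg

section norm

variable {K : Type} [NormedField K] [IsUltrametricDist K] {W : WeierstrassCurve.Affine K} {a b c : K}

theorem norm_four (h2 : ‖(2 : K)‖ = 1) : ‖(4 : K)‖ = 1 := by
  have : (4 : K) = 2 ^ 2 := by norm_num
  rw [this, norm_pow, h2, one_pow]

theorem norm_eight (h2 : ‖(2 : K)‖ = 1) : ‖(8 : K)‖ = 1 := by
  have : (8 : K) = 2 ^ 3 := by norm_num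
  rw [this, norm_pow, h2, one_pow]

theorem lt_of_sq {y : K} (h : ‖y ^ 2‖ < 1) : ‖y‖ < 1 := by
  rw [norm_pow] at h
  by_contra hcon
  push Not at hcon
  nlinarith

theorem lt_or_lt {s t : K} (h : ‖s * t‖ < 1) : ‖s‖ < 1 ∨ ‖t‖ < 1 := by
  by_contra hcon
  push Not at hcon
  rw [norm_mul] at h
  nlinarith [hcon.1, hcon.2]

/-- the points which have singular reduction -/
theorem IsN.sg_iff (h : IsN W a b c) (h2 : ‖(2 : K)‖ = 1) (ha : ‖a‖ ≤ 1) (hb : ‖b‖ ≤ 1)
    (hc : ‖c‖ ≤ 1) {x y : K} (hP : W.Equation x y) :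
    Sg W.a₁ W.a₂ W.a₃ W.a₄ x y ↔ ‖4 * x‖ ≤ 1 ∧ ((‖4 * x - a‖ < 1 ∧ ‖4 * x - b‖ < 1) ∨
      (‖4 * x - a‖ < 1 ∧ ‖4 * x - c‖ < 1) ∨ (‖4 * x - b‖ < 1 ∧ ‖4 * x - c‖ < 1)) := by
  have n4 := norm_four h2
  have n8 := norm_eight h2
  have e := h.eqn hP
  have d := h.der x y
  set u := 4 * x - a with hu
  set v := 4 * x - b with hv
  set w := 4 * x - c with hw
  have nd : ‖u * v + u * w + v * w‖ = ‖2 * (W.a₁ * y - (3 * x ^ 2 + 2 * W.a₂ * x + W.a₄)) -
      (2 * y + W.a₁ * x + W.a₃)‖ := by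
    rw [d, norm_mul, norm_neg, n8, one_mul]
  have nY : ‖4 * (2 * y + x)‖ = ‖2 * y + W.a₁ * x + W.a₃‖ := by
    rw [norm_mul, n4, one_mul, h.a1, h.a3, one_mul, add_zero]
  constructor
  · intro hs
    have hx : ‖4 * x‖ ≤ 1 := by rw [norm_mul, n4, one_mul]; exact hs.x1
    have iu : ‖u‖ ≤ 1 := nsub hx ha
    have iv : ‖v‖ ≤ 1 := nsub hx hb
    have iw : ‖w‖ ≤ 1 := nsub hx hc
    have q1 : ‖u * v + u * w + v * w‖ < 1 := by
      rw [nd]
      exact lsub (lmul h2.le hs.fx) hs.fy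
    have q2 : ‖u * v * w‖ < 1 := by
      rw [← e, norm_pow, nY]
      exact pow_lt_one₀ (norm_nonneg _) hs.fy two_ne_zero
    refine ⟨hx, ?_⟩
    rcases lt_or_lt q2 with q3 | q3
    · rcases lt_or_lt q3 with q4 | q4
      · have : ‖v * w‖ < 1 := by
          have e2 : v * w = (u * v + u * w + v * w) - u * (v + w) := by ring
          rw [e2]
          exact lsub q1 (lmul' q4 (nadd iv iw))
        rcases lt_or_lt this with q5 | q5
        · exact Or.inl ⟨q4, q5⟩
        · exact Or.inr (Or.inl ⟨q4, q5⟩)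
      · have : ‖u * w‖ < 1 := by
          have e2 : u * w = (u * v + u * w + v * w) - v * (u + w) := by ring
          rw [e2]
          exact lsub q1 (lmul' q4 (nadd iu iw))
        rcases lt_or_lt this with q5 | q5
        · exact Or.inl ⟨q5, q4⟩
        · exact Or.inr (Or.inr ⟨q4, q5⟩)
    · have : ‖u * v‖ < 1 := by
        have e2 : u * v = (u * v + u * w + v * w) - w * (u + v) := by ring
        rw [e2]
        exact lsub q1 (lmul' q3 (nadd iu iv))
      rcases lt_or_lt this with q5 | q5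
      · exact Or.inr (Or.inl ⟨q5, q3⟩)
      · exact Or.inr (Or.inr ⟨q5, q3⟩)
  · rintro ⟨hx, hh⟩
    have iu : ‖u‖ ≤ 1 := nsub hx ha
    have iv : ‖v‖ ≤ 1 := nsub hx hb
    have iw : ‖w‖ ≤ 1 := nsub hx hc
    have ix : ‖x‖ ≤ 1 := by rwa [norm_mul, n4, one_mul] at hx
    have hh2 : ‖u * v * w‖ < 1 ∧ ‖u * v + u * w + v * w‖ < 1 := by
      rcases hh with ⟨c1, c2⟩ | ⟨c1, c2⟩ | ⟨c1, c2⟩
      · exact ⟨lmul' (lmul' c1 iv) iw, ladd (ladd (lmul' c1 iv) (lmul' c1 iw)) (lmul' c2 iw)⟩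
      · exact ⟨lmul' (lmul' c1 iv) iw, ladd (ladd (lmul' c1 iv) (lmul' c1 iw)) (lmul iv c2)⟩
      · exact ⟨lmul' (lmul iu c1) iw, ladd (ladd (lmul iu c1) (lmul iu c2)) (lmul' c1 iw)⟩
    have fy : ‖2 * y + W.a₁ * x + W.a₃‖ < 1 := by
      rw [← nY]
      apply lt_of_sq
      rw [e]
      exact hh2.1
    have fx : ‖W.a₁ * y - (3 * x ^ 2 + 2 * W.a₂ * x + W.a₄)‖ < 1 := by
      have q1 := hh2.2
      rw [nd] at q1
      have q2 : ‖2 * (W.a₁ * y - (3 * x ^ 2 + 2 * W.a₂ * x + W.a₄))‖ < 1 := by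
        have e2 : 2 * (W.a₁ * y - (3 * x ^ 2 + 2 * W.a₂ * x + W.a₄)) =
          (2 * (W.a₁ * y - (3 * x ^ 2 + 2 * W.a₂ * x + W.a₄)) - (2 * y + W.a₁ * x + W.a₃)) +
            (2 * y + W.a₁ * x + W.a₃) := by ring
        rw [e2]
        exact ladd q1 fy
      rwa [norm_mul, h2, one_mul] at q2
    refine ⟨ix, ?_, fx, fy⟩
    have e2 : 2 * y = (2 * y + W.a₁ * x + W.a₃) - x := by
      rw [h.a1, h.a3]
      ring
    have q3 : ‖2 * y‖ ≤ 1 := by
      rw [e2]
      exact nsub fy.le ix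
    rwa [norm_mul, h2, one_mul] at q3

/-- good reduction, residue characteristic not two -/
theorem IsN.good (h : IsN W a b c) (h2 : ‖(2 : K)‖ = 1) (ha : ‖a‖ ≤ 1) (hb : ‖b‖ ≤ 1)
    (hc : ‖c‖ ≤ 1) (hab : ‖a - b‖ = 1) (hac : ‖a - c‖ = 1) (hbc : ‖b - c‖ = 1) : HH W = ⊤ := by
  rw [eq_top_iff]
  intro P _
  apply AddSubgroup.subset_closure
  intro x y hn _ hs
  rw [h.sg_iff h2 ha hb hc hn.1] at hs
  rcases hs.2 with ⟨c1, c2⟩ | ⟨c1, c2⟩ | ⟨c1, c2⟩
  · have := lsub c2 c1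
    have e : (4 * x - b) - (4 * x - a) = a - b := by ring
    rw [e, hab] at this
    exact lt_irrefl _ this
  · have := lsub c2 c1
    have e : (4 * x - c) - (4 * x - a) = a - c := by ring
    rw [e, hac] at this
    exact lt_irrefl _ this
  · have := lsub c2 c1
    have e : (4 * x - c) - (4 * x - b) = b - c := by ring
    rw [e, hbc] at this
    exact lt_irrefl _ this

/-- good reduction, residue characteristic two -/
theorem good_two (h1 : W.a₁ = 1) (h3 : W.a₃ = 0) (h6 : W.a₆ = 0) (i2 : ‖W.a₂‖ ≤ 1)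
    (i4 : ‖W.a₄‖ = 1) (h2 : ‖(2 : K)‖ < 1) : HH W = ⊤ := by
  rw [eq_top_iff]
  intro P _
  apply AddSubgroup.subset_closure
  intro x y hn _ hs
  have hE := hn.1
  rw [Affine.equation_iff, h1, h3, h6] at hE
  have fy := hs.fy
  have fx := hs.fx
  rw [h1, h3] at fy
  rw [h1] at fx
  have hx : ‖x‖ < 1 := by
    have e : x = (2 * y + 1 * x + 0) - 2 * y := by ring
    rw [e]
    exact lsub fy (lmul' h2 hs.y1)
  have i3 : ‖(3 : K)‖ ≤ 1 := by exact_mod_cast nnat (K := K) 3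
  have hq : ‖3 * x ^ 2 + 2 * W.a₂ * x‖ < 1 := by
    refine ladd (lmul i3 ?_) (lmul (nmul h2.le i2) hx)
    rw [norm_pow]
    exact pow_lt_one₀ (norm_nonneg _) hx two_ne_zero
  have hy4 : ‖y - W.a₄‖ < 1 := by
    have e : y - W.a₄ = (1 * y - (3 * x ^ 2 + 2 * W.a₂ * x + W.a₄)) + (3 * x ^ 2 + 2 * W.a₂ * x) := by
      ring
    rw [e]
    exact ladd fx hq
  have hy : ‖y‖ < 1 := by
    apply lt_of_sq
    have e : y ^ 2 = x * (x ^ 2 + W.a₂ * x + W.a₄ - y) := by linear_combination hE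
    rw [e]
    refine lmul' hx ?_
    exact nsub (nadd (nadd (npow hx.le 2) (nmul i2 hx.le)) i4.le) hs.y1
  have : ‖W.a₄‖ < 1 := by
    have e : W.a₄ = y - (y - W.a₄) := by ring
    rw [e]
    exact lsub hy hy4
  rw [i4] at this
  exact lt_irrefl _ this

theorem ne_zero_of_norm {z : K} {r : ℝ} (hr : r ≠ 0) (h : ‖z‖ = r) : z ≠ 0 := by
  rintro rfl
  rw [norm_zero] at h
  exact hr h.symm

/-- the setting: multiplicative reduction with the node at `4 x = a` -/
structure Nod (W : WeierstrassCurve.Affine K) (a b c : K) : Prop where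
  h : IsN W a b c
  h2 : ‖(2 : K)‖ = 1
  ha : ‖a‖ ≤ 1
  hb : ‖b‖ ≤ 1
  hc : ‖c‖ ≤ 1
  hab : ‖a - b‖ < 1
  hab0 : a - b ≠ 0
  hac : ‖a - c‖ = 1
  i2 : ‖W.a₂‖ ≤ 1
  i4 : ‖W.a₄‖ ≤ 1

theorem Nod.z2 (N : Nod W a b c) : (2 : K) ≠ 0 := ne_zero_of_norm one_ne_zero N.h2

theorem Nod.mem (N : Nod W a b c) (P : W.Point) : P ∈ HH W ↔ Ns W P := by
  have i1 : ‖W.a₁‖ ≤ 1 := by rw [N.h.a1, norm_one]
  have i3 : ‖W.a₃‖ ≤ 1 := by rw [N.h.a3, norm_zero]; exact zero_le_one
  exact mem_HH i1 N.i2 i3 N.i4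

theorem Nod.nonsing (N : Nod W a b c) : W.Nonsingular (a / 4) (-a / 8) :=
  N.h.nonsing N.z2 N.hab0 (ne_zero_of_norm one_ne_zero N.hac)

theorem Nod.sg (N : Nod W a b c) {x y : K} (hn : W.Nonsingular x y) :
    Sg W.a₁ W.a₂ W.a₃ W.a₄ x y ↔ ‖4 * x - a‖ < 1 := by
  rw [N.h.sg_iff N.h2 N.ha N.hb N.hc hn.1]
  constructor
  · rintro ⟨-, ⟨c1, -⟩ | ⟨c1, -⟩ | ⟨c1, c2⟩⟩
    · exact c1
    · exact c1
    · exfalso
      have := ladd (lsub c2 c1) N.hab
      have e : 4 * x - c - (4 * x - b) + (a - b) = a - c := by ring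
      rw [e, N.hac] at this
      exact lt_irrefl _ this
  · intro hx
    refine ⟨?_, Or.inl ⟨hx, ?_⟩⟩
    · have := nadd hx.le N.ha
      rwa [sub_add_cancel] at this
    · have e : 4 * x - b = (4 * x - a) + (a - b) := by ring
      rw [e]
      exact ladd hx N.hab

theorem Nod.isin (N : Nod W a b c) {x y : K} (hn : W.Nonsingular x y) (hx : 1 ≤ ‖4 * x - a‖) :
    (Affine.Point.some x y hn : W.Point) ∈ HH W := by
  rw [N.mem]
  intro x' y' hn' he hs
  obtain ⟨e1, e2⟩ := Affine.Point.some.inj he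
  subst e1
  subst e2
  exact absurd ((N.sg hn).1 hs) (not_lt.2 hx)

theorem Nod.notin (N : Nod W a b c) {x y : K} (hn : W.Nonsingular x y) (hx : ‖4 * x - a‖ < 1) :
    (Affine.Point.some x y hn : W.Point) ∉ HH W := by
  intro hm
  rw [N.mem] at hm
  exact hm x y hn rfl ((N.sg hn).2 hx)

/-- the point of order two which reduces to the node -/
noncomputable def Nod.T (N : Nod W a b c) : W.Point := Affine.Point.some (a / 4) (-a / 8) N.nonsing

theorem Nod.e4 (N : Nod W a b c) (t : K) : 4 * (t / 4) = t := by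
  have : (4 : K) ≠ 0 := ne_zero_of_norm one_ne_zero (norm_four N.h2)
  field_simp

theorem Nod.T_notin (N : Nod W a b c) : N.T ∉ HH W := by
  refine N.notin N.nonsing ?_
  rw [N.e4, sub_self, norm_zero]
  exact one_pos

theorem Nod.T2 (N : Nod W a b c) : N.T + N.T = 0 := N.h.dbl N.z2 N.nonsing

/-- translation of the points near to the node -/
theorem Nod.trans (N : Nod W a b c) {x y : K} (hn : W.Nonsingular x y)
    (hle : ‖4 * x - a‖ ≤ ‖a - b‖) : Affine.Point.some x y hn + N.T ∈ HH W := by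
  by_cases h0 : 4 * x - a = 0
  · rw [N.h.eq_T N.z2 hn N.nonsing h0]
    show N.T + N.T ∈ HH W
    rw [N.T2]
    exact zero_mem _
  obtain ⟨X, Y, H, e, hX⟩ := N.h.addT N.z2 hn N.nonsing h0
  show Affine.Point.some x y hn + Affine.Point.some (a / 4) (-a / 8) N.nonsing ∈ HH W
  rw [e]
  apply N.isin
  rw [hX, norm_div, norm_mul, N.hac, mul_one, one_le_div (norm_pos_iff.2 h0)]
  exact hle

/-- representatives of the classes -/
theorem index_of' {G : Type} [AddCommGroup G] (H : AddSubgroup G) {n : ℕ} (T : Fin n → G)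
    (hs : ∀ P, ∃ i, P - T i ∈ H) (hi : ∀ i j, T i - T j ∈ H → i = j) : H.index = n := by
  rw [AddSubgroup.index, ← Nat.card_eq_of_bijective (α := Fin n)
    (fun i => (QuotientAddGroup.mk (T i) : G ⧸ H)), Nat.card_eq_fintype_card, Fintype.card_fin]
  constructor
  · intro i j hij
    simp only at hij
    rw [QuotientAddGroup.eq] at hij
    exact (hi j i (by rwa [sub_eq_neg_add])).symm
  · intro q
    induction q using QuotientAddGroup.induction_on with
    | H P =>
      obtain ⟨i, h⟩ := hs P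
      refine ⟨i, ?_⟩
      simp only
      rw [QuotientAddGroup.eq, ← sub_eq_neg_add]
      exact h

/-- type `I_2` -/
theorem Nod.two (N : Nod W a b c) (hd : Dsc K) (hab : ‖a - b‖ = 1 / 2) : (HH W).index = 2 := by
  refine index_of' (HH W) ![0, N.T] ?_ ?_
  · intro P
    rcases P with _ | ⟨x, y, hn⟩
    · refine ⟨0, ?_⟩
      show (0 : W.Point) - 0 ∈ HH W
      rw [sub_zero]
      exact zero_mem _
    by_cases hx : ‖4 * x - a‖ < 1
    swap
    · push Not at hx
      refine ⟨0, ?_⟩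
      show Affine.Point.some x y hn - 0 ∈ HH W
      rw [sub_zero]
      exact N.isin hn hx
    refine ⟨1, ?_⟩
    show Affine.Point.some x y hn - N.T ∈ HH W
    rw [sub_eq_add_neg, neg_eq_of_add_eq_zero_left N.T2]
    refine N.trans hn ?_
    rw [hab]
    exact hd.lt_one hx
  · intro i j hij
    fin_cases i <;> fin_cases j
    · rfl
    · exfalso
      have h1 : (0 : W.Point) - N.T ∈ HH W := hij
      rw [zero_sub, neg_mem_iff] at h1
      exact N.T_notin h1
    · exfalso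
      have h1 : N.T - (0 : W.Point) ∈ HH W := hij
      rw [sub_zero] at h1
      exact N.T_notin h1
    · rfl

/-- the points of the component `± 1` of the type `I_4`: `s ^ 2 = a - c` -/
def Cp (W : WeierstrassCurve.Affine K) (a s : K) (P : W.Point) : Prop :=
  ∃ x y hn, P = Affine.Point.some x y hn ∧ ‖4 * x - a‖ = 1 / 2 ∧
    ‖4 * (2 * y + x) / (4 * x - a) - s‖ < 1

theorem Nod.cp_notin (N : Nod W a b c) {s : K} {P : W.Point} (h : Cp W a s P) : P ∉ HH W := by
  obtain ⟨x, y, hn, rfl, h1, -⟩ := h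
  refine N.notin hn ?_
  rw [h1]
  norm_num

theorem Nod.cp_neg (N : Nod W a b c) {s : K} {P : W.Point} (h : Cp W a s P) : Cp W a (-s) (-P) := by
  obtain ⟨x, y, hn, rfl, h1, h2⟩ := h
  obtain ⟨H, e⟩ := N.h.neg hn
  refine ⟨x, -y - x, H, e, h1, ?_⟩
  have e2 : 4 * (2 * (-y - x) + x) / (4 * x - a) - -s =
      -(4 * (2 * y + x) / (4 * x - a) - s) := by ring
  rw [e2, norm_neg]
  exact h2

/-- a point of level one is on one of the components `± 1` -/
theorem Nod.cp_or (N : Nod W a b c) {s : K} (hs : s ^ 2 = a - c) (hab : ‖a - b‖ = 1 / 4)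
    {x y : K} (hn : W.Nonsingular x y) (hx : ‖4 * x - a‖ = 1 / 2) :
    Cp W a s (Affine.Point.some x y hn) ∨ Cp W a (-s) (Affine.Point.some x y hn) := by
  have h0 : 4 * x - a ≠ 0 := ne_zero_of_norm (by norm_num) hx
  have hE := N.h.eqn hn.1
  have e5 : (4 * (2 * y + x) / (4 * x - a) - s) * (4 * (2 * y + x) / (4 * x - a) + s) =
      (a - b) / (4 * x - a) * ((a - c) + (4 * x - a)) + (4 * x - a) := by
    have e6 : (4 * (2 * y + x) / (4 * x - a)) ^ 2 =
        (4 * x - b) * (4 * x - c) / (4 * x - a) := by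
      rw [div_pow, hE]
      field_simp
    have e7 : (4 * (2 * y + x) / (4 * x - a) - s) * (4 * (2 * y + x) / (4 * x - a) + s) =
      (4 * (2 * y + x) / (4 * x - a)) ^ 2 - s ^ 2 := by ring
    rw [e7, e6, hs]
    field_simp
    ring
  have h3 : ‖(4 * (2 * y + x) / (4 * x - a) - s) * (4 * (2 * y + x) / (4 * x - a) + s)‖ < 1 := by
    rw [e5]
    have h4 : ‖4 * x - a‖ < 1 := by rw [hx]; norm_num
    refine ladd (lmul' ?_ (nadd N.hac.le h4.le)) h4
    rw [norm_div, hab, hx]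
    norm_num
  rcases lt_or_lt h3 with h4 | h4
  · exact Or.inl ⟨x, y, hn, rfl, hx, h4⟩
  · refine Or.inr ⟨x, y, hn, rfl, hx, ?_⟩
    rwa [sub_neg_eq_add]

/-- the sum of two points of opposite components -/
theorem Nod.cp_add (N : Nod W a b c) {s : K} (hs : s ^ 2 = a - c) {P Q : W.Point}
    (hP : Cp W a s P) (hQ : Cp W a (-s) Q) : P + Q ∈ HH W := by
  obtain ⟨x1, y1, h1, rfl, n1, m1⟩ := hP
  obtain ⟨x2, y2, h2, rfl, n2, m2⟩ := hQ
  have u1 : 4 * x1 - a ≠ 0 := ne_zero_of_norm (by norm_num) n1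
  have u2 : 4 * x2 - a ≠ 0 := ne_zero_of_norm (by norm_num) n2
  have ns : ‖s‖ = 1 := by
    have : ‖s‖ ^ 2 = 1 := by rw [← norm_pow, hs, N.hac]
    exact (pow_eq_one_iff_of_nonneg (norm_nonneg _) two_ne_zero).1 this
  have n4 := norm_four N.h2
  obtain ⟨t1, ht1⟩ : ∃ t, t = 4 * (2 * y1 + x1) / (4 * x1 - a) := ⟨_, rfl⟩
  obtain ⟨t2, ht2⟩ : ∃ t, t = 4 * (2 * y2 + x2) / (4 * x2 - a) := ⟨_, rfl⟩
  rw [← ht1] at m1
  rw [← ht2] at m2
  have hY1 : 4 * (2 * y1 + x1) = t1 * (4 * x1 - a) := by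
    rw [ht1, div_mul_cancel₀ _ u1]
  have hY2 : 4 * (2 * y2 + x2) = t2 * (4 * x2 - a) := by
    rw [ht2, div_mul_cancel₀ _ u2]
  have nt : ‖t1 - t2‖ = 1 := by
    have e : t1 - t2 = 2 * s + ((t1 - s) - (t2 - -s)) := by ring
    rw [e, norm_eq_of_lt, norm_mul, N.h2, ns, one_mul]
    rw [norm_mul, N.h2, ns, one_mul]
    exact lsub m1 m2
  by_cases hx : x1 = x2
  · subst hx
    have hE1 := N.h.eqn h1.1
    have hE2 := N.h.eqn h2.1
    have e1 : (t1 * (4 * x1 - a)) ^ 2 = (t2 * (4 * x1 - a)) ^ 2 := by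
      rw [← hY1, ← hY2, hE1, hE2]
    have e2 : (t1 - t2) * (t1 + t2) = 0 := by
      have e3 : ((t1 - t2) * (t1 + t2)) * (4 * x1 - a) ^ 2 = 0 := by linear_combination e1
      exact (mul_eq_zero.1 e3).resolve_right (pow_ne_zero _ u1)
    have e3 : t1 + t2 = 0 :=
      (mul_eq_zero.1 e2).resolve_left (ne_zero_of_norm one_ne_zero nt)
    have h8 : (8 : K) ≠ 0 := ne_zero_of_norm one_ne_zero (norm_eight N.h2)
    have e4 : y1 = W.negY x1 y2 := by
      rw [Affine.negY, N.h.a1, N.h.a3]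
      apply mul_left_cancel₀ h8
      linear_combination hY1 + hY2 + (4 * x1 - a) * e3
    rw [Affine.Point.add_of_Y_eq rfl e4]
    exact zero_mem _
  · obtain ⟨X, Y, H, e, hX⟩ := N.h.addP h1 h2 hx
    rw [e]
    apply N.isin
    rw [hY1, hY2] at hX
    have hX2 : (4 * X - a) * (4 * x1 - 4 * x2) ^ 2 =
        ((4 * x1 - a) * (4 * x2 - a)) * (t1 - t2) ^ 2 := by
      apply mul_left_cancel₀ (mul_ne_zero u1 u2)
      linear_combination hX
    have hX3 := congrArg norm hX2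
    rw [norm_mul, norm_mul, norm_mul, norm_pow, norm_pow, n1, n2, nt] at hX3
    have h5 : ‖4 * x1 - 4 * x2‖ ≤ 1 / 2 := by
      have e5 : 4 * x1 - 4 * x2 = (4 * x1 - a) - (4 * x2 - a) := by ring
      rw [e5]
      rw [sub_eq_add_neg]
      refine (IsUltrametricDist.norm_add_le_max _ _).trans (max_le n1.le ?_)
      rw [norm_neg]
      exact n2.le
    by_contra hcon
    push Not at hcon
    have h6 : ‖4 * x1 - 4 * x2‖ ^ 2 ≤ (1 / 2) ^ 2 :=
      pow_le_pow_left₀ (norm_nonneg _) h5 2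
    have h7 : ‖4 * X - a‖ * ‖4 * x1 - 4 * x2‖ ^ 2 ≤ ‖4 * X - a‖ * (1 / 2) ^ 2 :=
      mul_le_mul_of_nonneg_left h6 (norm_nonneg _)
    rw [hX3] at h7
    linarith

/-- adding the point of order two -/
theorem Nod.cp_T (N : Nod W a b c) {s : K} (hs : s ^ 2 = a - c) (hab : ‖a - b‖ = 1 / 4)
    {P : W.Point} (hP : Cp W a s P) : Cp W a (-s) (P + N.T) := by
  have hP' := hP
  obtain ⟨x, y, hn, rfl, n1, m1⟩ := hP
  have u1 : 4 * x - a ≠ 0 := ne_zero_of_norm (by norm_num) n1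
  obtain ⟨X, Y, H, e, hX⟩ := N.h.addT N.z2 hn N.nonsing u1
  have e' : Affine.Point.some x y hn + N.T = Affine.Point.some X Y H := e
  rw [e']
  have h3 : ‖4 * X - a‖ = 1 / 2 := by
    rw [hX, norm_div, norm_mul, N.hac, hab, n1]
    norm_num
  rcases N.cp_or hs hab H h3 with h4 | h4
  · exfalso
    have h5 := N.cp_add hs h4 (N.cp_neg hP')
    rw [← e', add_comm (Affine.Point.some x y hn), add_neg_cancel_right] at h5
    exact N.T_notin h5
  · exact h4

/-- type `I_4` -/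
theorem Nod.four (N : Nod W a b c) (hd : Dsc K) {s : K} (hs : s ^ 2 = a - c)
    (hab : ‖a - b‖ = 1 / 4) {x0 y0 : K} (hn0 : W.Nonsingular x0 y0) (hx0 : ‖4 * x0 - a‖ = 1 / 2) :
    (HH W).index = 4 := by
  obtain ⟨Q, hQ⟩ : ∃ Q : W.Point, Cp W a s Q := by
    rcases N.cp_or hs hab hn0 hx0 with h | h
    · exact ⟨_, h⟩
    · refine ⟨-Affine.Point.some x0 y0 hn0, ?_⟩
      have h1 := N.cp_neg h
      rwa [neg_neg] at h1
  have hQ' := N.cp_neg hQ
  have hQT := N.cp_T hs hab hQ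
  have hs' : (-s) ^ 2 = a - c := by rw [neg_sq, hs]
  have hQT' := N.cp_T hs' hab hQ'
  have nT : -N.T = N.T := neg_eq_of_add_eq_zero_left N.T2
  have k0 : N.T ∉ HH W := N.T_notin
  have k1 : Q ∉ HH W := N.cp_notin hQ
  have k2 : Q + N.T ∉ HH W := N.cp_notin hQT
  have k3 : -Q + N.T ∉ HH W := N.cp_notin hQT'
  have k4 : Q + Q ∉ HH W := by
    intro h
    have h1 := N.cp_add hs hQ hQT
    have h2 := sub_mem h1 h
    have e : Q + (Q + N.T) - (Q + Q) = N.T := by abel
    rw [e] at h2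
    exact k0 h2
  refine index_of' (HH W) ![0, N.T, Q, -Q] ?_ ?_
  · intro P
    rcases P with _ | ⟨x, y, hn⟩
    · refine ⟨0, ?_⟩
      show (0 : W.Point) - 0 ∈ HH W
      rw [sub_zero]
      exact zero_mem _
    by_cases hx : ‖4 * x - a‖ < 1
    swap
    · push Not at hx
      refine ⟨0, ?_⟩
      show Affine.Point.some x y hn - 0 ∈ HH W
      rw [sub_zero]
      exact N.isin hn hx
    by_cases hx2 : ‖4 * x - a‖ ≤ 1 / 4
    · refine ⟨1, ?_⟩
      show Affine.Point.some x y hn - N.T ∈ HH W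
      rw [sub_eq_add_neg, nT]
      refine N.trans hn ?_
      rw [hab]
      exact hx2
    have hx3 : ‖4 * x - a‖ = 1 / 2 := by
      refine le_antisymm (hd.lt_one hx) ?_
      by_contra hcon
      push Not at hcon
      have h1 : ‖4 * x - a‖ < 2 ^ (-1 : ℤ) := by
        rw [zpow_neg_one, ← one_div]
        exact hcon
      have h2 := hd.lt h1
      apply hx2
      norm_num at h2 ⊢
      exact h2
    rcases N.cp_or hs hab hn hx3 with h | h
    · exact ⟨2, show Affine.Point.some x y hn - Q ∈ HH W by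
        rw [sub_eq_add_neg]; exact N.cp_add hs h hQ'⟩
    · exact ⟨3, show Affine.Point.some x y hn - -Q ∈ HH W by
        rw [sub_neg_eq_add, add_comm]; exact N.cp_add hs hQ h⟩
  · intro i j hij
    fin_cases i <;> fin_cases j
    · rfl
    · exact absurd (show N.T ∈ HH W by
        have h : (0 : W.Point) - N.T ∈ HH W := hij
        rwa [zero_sub, neg_mem_iff] at h) k0
    · exact absurd (show Q ∈ HH W by
        have h : (0 : W.Point) - Q ∈ HH W := hij
        rwa [zero_sub, neg_mem_iff] at h) k1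
    · exact absurd (show Q ∈ HH W by
        have h : (0 : W.Point) - -Q ∈ HH W := hij
        rwa [zero_sub, neg_neg] at h) k1
    · exact absurd (show N.T ∈ HH W by
        have h : N.T - (0 : W.Point) ∈ HH W := hij
        rwa [sub_zero] at h) k0
    · rfl
    · exact absurd (show -Q + N.T ∈ HH W by
        have h : N.T - Q ∈ HH W := hij
        rwa [sub_eq_neg_add] at h) k3
    · exact absurd (show Q + N.T ∈ HH W by
        have h : N.T - -Q ∈ HH W := hij
        rwa [sub_neg_eq_add, add_comm] at h) k2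
    · exact absurd (show Q ∈ HH W by
        have h : Q - (0 : W.Point) ∈ HH W := hij
        rwa [sub_zero] at h) k1
    · exact absurd (show Q + N.T ∈ HH W by
        have h : Q - N.T ∈ HH W := hij
        rwa [sub_eq_add_neg, nT] at h) k2
    · rfl
    · exact absurd (show Q + Q ∈ HH W by
        have h : Q - -Q ∈ HH W := hij
        rwa [sub_neg_eq_add] at h) k4
    · exact absurd (show Q ∈ HH W by
        have h : -Q - (0 : W.Point) ∈ HH W := hij
        rwa [sub_zero, neg_mem_iff] at h) k1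
    · exact absurd (show -Q + N.T ∈ HH W by
        have h : -Q - N.T ∈ HH W := hij
        rwa [sub_eq_add_neg, nT] at h) k3
    · exact absurd (show Q + Q ∈ HH W by
        have h : -Q - Q ∈ HH W := hij
        have e : -Q - Q = -(Q + Q) := by abel
        rwa [e, neg_mem_iff] at h) k4
    · rfl

end norm

/-! ### The local statements for valuations -/

/-- the curve `17a2` -/
def W0 : WeierstrassCurve ℤ := ⟨1, -4, 0, -1, 0⟩

theorem isN0 (k : Type) [Field k] : IsN (base W0 k).toAffine (16 : k) (-1) 0 := by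
  refine ⟨?_, ?_, ?_, ?_, ?_⟩
  · show ((1 : ℤ) : k) = 1
    norm_num
  · show 4 * ((-4 : ℤ) : k) = _
    push_cast
    ring
  · show ((0 : ℤ) : k) = 0
    norm_num
  · show 16 * ((-1 : ℤ) : k) = _
    push_cast
    ring
  · show 64 * ((0 : ℤ) : k) = _
    push_cast
    ring

section loc

variable {k : Type} [Field k] (v : Valuation k (WithZero (Multiplicative ℤ)))
  (hv : ∀ n : ℤ, v n ≤ 1)

theorem nf_quarter {x : k} : @norm k (nf v).toNorm x = 1 / 4 ↔ v x = exp (-2 : ℤ) := by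
  have := nf_eq v x (-2)
  rw [← this]
  norm_num

include hv

theorem l_good (h17 : v (17 : k) = 1) : E0 W0 k v = ⊤ := by
  let _ := nf v
  have := nf_ultra v
  have hi : ∀ n : ℤ, ‖(n : k)‖ ≤ 1 := fun n => (nf_le_one v _).2 (hv n)
  rw [E0_eq v hv]
  have n17 : ‖(17 : k)‖ = 1 := (nf_eq_one v _).2 h17
  have i2 : ‖(2 : k)‖ ≤ 1 := by exact_mod_cast hi 2
  have hN := isN0 k
  rcases lt_or_eq_of_le i2 with h2 | h2
  · refine good_two hN.a1 hN.a3 ?_ (hi _) ?_ h2
    · show ((0 : ℤ) : k) = 0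
      norm_num
    · show ‖((-1 : ℤ) : k)‖ = 1
      push_cast
      rw [norm_neg, norm_one]
  · have n16 : ‖(16 : k)‖ = 1 := by
      have : (16 : k) = 2 ^ 4 := by norm_num
      rw [this, norm_pow, h2, one_pow]
    refine hN.good h2 n16.le (by rw [norm_neg, norm_one]) (by rw [norm_zero]; exact zero_le_one)
      ?_ ?_ ?_
    · have e : (16 : k) - -1 = 17 := by norm_num
      rw [e, n17]
    · rw [sub_zero, n16]
    · rw [sub_zero, norm_neg, norm_one]

theorem nod0 (h2 : v (2 : k) = 1) (h17 : v (17 : k) < 1) (h170 : (17 : k) ≠ 0) :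
    @Nod k (nf v) (base W0 k).toAffine (16 : k) (-1) 0 := by
  let _ := nf v
  have := nf_ultra v
  have hi : ∀ n : ℤ, ‖(n : k)‖ ≤ 1 := fun n => (nf_le_one v _).2 (hv n)
  have n2 : ‖(2 : k)‖ = 1 := (nf_eq_one v _).2 h2
  have n17 : ‖(17 : k)‖ < 1 := (nf_lt_one v _).2 h17
  have n16 : ‖(16 : k)‖ = 1 := by
    have : (16 : k) = 2 ^ 4 := by norm_num
    rw [this, norm_pow, n2, one_pow]
  have e : (16 : k) - -1 = 17 := by norm_num
  refine ⟨isN0 k, n2, n16.le, by rw [norm_neg, norm_one], by rw [norm_zero]; exact zero_le_one,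
    by rw [e]; exact n17, by rw [e]; exact h170, by rw [sub_zero, n16], hi _, hi _⟩

theorem l_two (h2 : v (2 : k) = 1) (h17 : v (17 : k) = exp (-1 : ℤ)) : (E0 W0 k v).index = 2 := by
  have h170 : (17 : k) ≠ 0 := by
    rw [← Valuation.ne_zero_iff v, h17]
    exact exp_ne_zero
  have h17' : v (17 : k) < 1 := by
    rw [h17, ← exp_zero, exp_lt_exp]
    norm_num
  have N := nod0 v hv h2 h17' h170
  let _ := nf v
  have := nf_ultra v
  rw [E0_eq v hv]
  refine N.two (nf_dsc v) ?_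
  have e : (16 : k) - -1 = 17 := by norm_num
  rw [e, nf_half]
  exact h17

theorem l_four (h2 : v (2 : k) = 1) (h17 : v (17 : k) = exp (-2 : ℤ)) {w : k}
    (hw : v w = exp (-1 : ℤ)) (hh : ∀ z : k, v (z - 1) < 1 → IsSquare z) :
    (E0 W0 k v).index = 4 := by
  have h170 : (17 : k) ≠ 0 := by
    rw [← Valuation.ne_zero_iff v, h17]
    exact exp_ne_zero
  have hw0 : w ≠ 0 := by
    rw [← Valuation.ne_zero_iff v, hw]
    exact exp_ne_zero
  have h17' : v (17 : k) < 1 := by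
    rw [h17, ← exp_zero, exp_lt_exp]
    norm_num
  have N := nod0 v hv h2 h17' h170
  let _ := nf v
  have := nf_ultra v
  rw [E0_eq v hv]
  have n2 : ‖(2 : k)‖ = 1 := (nf_eq_one v _).2 h2
  have nw : ‖w‖ = 1 / 2 := (nf_half v _).2 hw
  have n17 : ‖(17 : k)‖ = 1 / 4 := (nf_quarter v).2 h17
  have n16 : ‖(16 : k)‖ = 1 := by
    have : (16 : k) = 2 ^ 4 := by norm_num
    rw [this, norm_pow, n2, one_pow]
  have z16 : (16 : k) ≠ 0 := ne_zero_of_norm one_ne_zero n16
  have z2 : (2 : k) ≠ 0 := ne_zero_of_norm one_ne_zero n2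
  have z4 : (4 : k) ≠ 0 := ne_zero_of_norm one_ne_zero (norm_four n2)
  have e17 : (16 : k) - -1 = 17 := by norm_num
  -- the square root
  have hsm : ‖(1 + 17 / w) * (1 + w / 16) - 1‖ < 1 := by
    have e : (1 + 17 / w) * (1 + w / 16) - 1 = 17 / w + (w / 16 + 17 / w * (w / 16)) := by ring
    rw [e]
    have q1 : ‖17 / w‖ < 1 := by
      rw [norm_div, n17, nw]
      norm_num
    have q2 : ‖w / 16‖ < 1 := by
      rw [norm_div, nw, n16]
      norm_num
    exact ladd q1 (ladd q2 (lmul' q1 q2.le))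
  obtain ⟨q, hq⟩ := hh _ ((nf_lt_one v _).1 hsm)
  have hq0 : q ≠ 0 := by
    rintro rfl
    rw [hq, mul_zero, zero_sub, norm_neg, norm_one] at hsm
    exact lt_irrefl _ hsm
  have hq' : (w * q) ^ 2 * 16 = w * (w + 17) * (w + 16) := by
    have e1 : (w * q) ^ 2 * 16 = 16 * w ^ 2 * (q * q) := by ring
    rw [e1, ← hq]
    field_simp
    ring
  obtain ⟨x, hx⟩ : ∃ x : k, x = (16 + w) / 4 := ⟨_, rfl⟩
  obtain ⟨y, hy⟩ : ∃ y : k, y = (w * q - x) / 2 := ⟨_, rfl⟩
  have hx4 : 4 * x = 16 + w := by rw [hx]; field_simp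
  have hy2 : 2 * y + x = w * q := by rw [hy]; field_simp; ring
  have hN := N.h
  have hn : (base W0 k).toAffine.Nonsingular x y := by
    rw [Affine.nonsingular_iff, Affine.equation_iff]
    constructor
    · rw [hN.a1, hN.a3]
      have h64 : (64 : k) ≠ 0 := by
        have : (64 : k) = 16 * 4 := by norm_num
        rw [this]
        exact mul_ne_zero z16 z4
      apply mul_left_cancel₀ h64
      have e1 : (4 * (2 * y + x)) ^ 2 = (4 * x - 16) * (4 * x - -1) * (4 * x - 0) := by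
        rw [hy2, hx4]
        linear_combination hq'
      linear_combination e1 - 16 * x ^ 2 * hN.a2 - 4 * x * hN.a4 - hN.a6
    · right
      intro h0
      rw [hN.a1, hN.a3] at h0
      have h1 : w * q = 0 := by
        rw [← hy2]
        linear_combination h0
      exact mul_ne_zero hw0 hq0 h1
  refine N.four (nf_dsc v) (s := 4) (by norm_num) ?_ hn ?_
  · rw [e17, n17]
  · have e : 4 * x - 16 = w := by rw [hx4]; ring
    rw [e, nw]

end loc

end Pool.Agent.N232.K17
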